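import Pool.Agent.G9.Stmts

set_option autoImplicit false

namespace Pool.Agent.G9.H17

open Finset

theorem ncard_sum (V : Type) [Fintype V] (R : V → V → Prop) [∀ u v, Decidable (R u v)] :
    (({q : V × V | R q.1 q.2}.ncard : ℕ) : ℝ) = ∑ u, ∑ v, (if R u v then (1 : ℝ) else 0) := by
  rw [← Fintype.sum_prod_type' (f := fun u v => if R u v then (1 : ℝ) else 0)]
  rw [Finset.sum_boole]
  classical
  rw [Set.ncard_eq_toFinset_card']
  congr 2
  ext q
  simp

theorem cut : CutStmt := by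
  classical
  intro V _ G _ m B hm hB S
  have h := hB (fun v => if v ∈ S then 1 else -1) (fun v => by by_cases hv : v ∈ S <;> simp [hv])
  have h1 : (2 * m : ℝ) = ∑ u, ∑ v, (if G.Adj u v then (1 : ℝ) else 0) := by
    have := ncard_sum V (fun u v => G.Adj u v)
    rw [hm] at this
    push_cast at this
    exact this
  have h2 := ncard_sum V (fun u v => u ∈ S ∧ v ∉ S ∧ G.Adj u v)
  have h3 : ∑ u, ∑ v, (if u ∈ S ∧ v ∉ S ∧ G.Adj u v then (1 : ℝ) else 0) =
      ∑ u, ∑ v, (if u ∉ S ∧ v ∈ S ∧ G.Adj u v then (1 : ℝ) else 0) := by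
    rw [Finset.sum_comm]
    refine Finset.sum_congr rfl fun u _ => Finset.sum_congr rfl fun v _ => ?_
    by_cases a : u ∈ S <;> by_cases b : v ∈ S <;> by_cases c : G.Adj u v <;>
      simp [a, b, c, G.adj_comm v u]
  have h4 : ∑ u, ∑ v, (if G.Adj u v then
      (if u ∈ S then (1 : ℝ) else -1) * (if v ∈ S then (1 : ℝ) else -1) else 0) =
      ∑ u, ∑ v, (if G.Adj u v then (1 : ℝ) else 0) -
        2 * (∑ u, ∑ v, (if u ∈ S ∧ v ∉ S ∧ G.Adj u v then (1 : ℝ) else 0)) -
        2 * (∑ u, ∑ v, (if u ∉ S ∧ v ∈ S ∧ G.Adj u v then (1 : ℝ) else 0)) := by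
    rw [Finset.mul_sum, Finset.mul_sum, ← Finset.sum_sub_distrib, ← Finset.sum_sub_distrib]
    refine Finset.sum_congr rfl fun u _ => ?_
    rw [Finset.mul_sum, Finset.mul_sum, ← Finset.sum_sub_distrib, ← Finset.sum_sub_distrib]
    refine Finset.sum_congr rfl fun v _ => ?_
    by_cases a : u ∈ S <;> by_cases b : v ∈ S <;> by_cases c : G.Adj u v <;>
      simp [a, b, c] <;> norm_num
  have h5 : -B ≤ ∑ u, ∑ v, (if G.Adj u v then
      (if u ∈ S then (1 : ℝ) else -1) * (if v ∈ S then (1 : ℝ) else -1) else 0) := by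
    refine h.trans (le_of_eq ?_)
    refine Finset.sum_congr rfl fun u _ => Finset.sum_congr rfl fun v _ => ?_
    by_cases c : G.Adj u v <;> simp [c]
  rw [h4, ← h3, ← h1, ← h2] at h5
  linarith

end Pool.Agent.G9.H17
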